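import Mathlib

namespace Pool.Agent.H.MP_65d788_al

def f (a : ZMod 11) : ZMod 23 := 2 ^ a.val

theorem f_add : ∀ a b, f (a + b) = f a * f b := by decide
theorem f_zero : f 0 = 1 := by decide
theorem f_inj : ∀ a, f a = 1 → a = 0 := by decide

def sh (k : ZMod 5) (i : Fin 6) : Fin 6 :=
  if i = 5 then 5 else ⟨(i.val + k.val) % 5, by omega⟩

theorem sh_add : ∀ k l i, sh (k + l) i = sh k (sh l i) := by decide
theorem sh_zero : ∀ i, sh 0 i = i := by decide
theorem sh_five : ∀ k i, sh k i = 5 ↔ i = 5 := by decide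
theorem sh_fix : ∀ k, sh k 0 = 0 → k = 0 := by decide
theorem sh_neg (k : ZMod 5) (i : Fin 6) : sh (-k) (sh k i) = i := by
  rw [← sh_add, neg_add_cancel, sh_zero]

@[ext] structure A : Type where
  d : Fin 6 → ZMod 11
  k : ZMod 5

instance : Mul A := ⟨fun a b => ⟨fun i => a.d i + b.d (sh (-a.k) i), a.k + b.k⟩⟩
instance : One A := ⟨⟨0, 0⟩⟩
instance : Inv A := ⟨fun a => ⟨fun i => -a.d (sh a.k i), -a.k⟩⟩

@[simp] theorem mul_d (a b : A) (i) : (a * b).d i = a.d i + b.d (sh (-a.k) i) := rfl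
@[simp] theorem mul_k (a b : A) : (a * b).k = a.k + b.k := rfl
@[simp] theorem one_d (i) : (1 : A).d i = 0 := rfl
@[simp] theorem one_k : (1 : A).k = 0 := rfl
@[simp] theorem inv_d (a : A) (i) : a⁻¹.d i = -a.d (sh a.k i) := rfl
@[simp] theorem inv_k (a : A) : a⁻¹.k = -a.k := rfl

instance : Group A := Group.ofLeftAxioms
  (by
    intro a b c
    ext i
    · simp only [mul_d, mul_k, ← sh_add, add_assoc, neg_add_rev]
    · simp [add_assoc])
  (by
    intro a
    ext i <;> simp [sh_zero])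
  (by
    intro a
    ext i <;> simp)

def eqv : A ≃ (Fin 6 → ZMod 11) × ZMod 5 where
  toFun a := (a.d, a.k)
  invFun p := ⟨p.1, p.2⟩
  left_inv _ := rfl
  right_inv _ := rfl

theorem card_A : Nat.card A = 11 ^ 6 * 5 := by
  rw [Nat.card_congr eqv]; simp

def κ : A →* Multiplicative (ZMod 5) :=
  MonoidHom.mk' (fun a => Multiplicative.ofAdd a.k) (fun _ _ => rfl)

theorem card_ker : Nat.card κ.ker = 11 ^ 6 := by
  have h1 := κ.ker.card_mul_index
  rw [Subgroup.index_ker, MonoidHom.range_eq_top.2 (fun x => ⟨⟨0, x.toAdd⟩, rfl⟩), card_A] at h1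
  have h2 : Nat.card (⊤ : Subgroup (Multiplicative (ZMod 5))) = 5 := by simp
  rw [h2] at h1
  omega

theorem pow_k (a : A) (n : ℕ) : (a ^ n).k = n * a.k := by
  induction n with
  | zero => simp
  | succ n ih => rw [pow_succ, mul_k, ih]; push_cast; ring

theorem pow_d (a : A) (h : a.k = 0) (n : ℕ) (i) : (a ^ n).d i = n * a.d i := by
  induction n with
  | zero => simp
  | succ n ih =>
    rw [pow_succ, mul_d, ih, pow_k, h, mul_zero, neg_zero, sh_zero]; push_cast; ring

def mat (a : A) : Matrix (Fin 6) (Fin 6) (ZMod 23) :=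
  fun i j => if i = sh a.k j then f (a.d i) else 0

def matHom : A →* Matrix (Fin 6) (Fin 6) (ZMod 23) where
  toFun := mat
  map_one' := by
    ext i j
    simp [mat, sh_zero, f_zero, Matrix.one_apply]
  map_mul' a b := by
    ext i j
    rw [Matrix.mul_apply, Finset.sum_eq_single (sh b.k j)]
    · simp only [mat, mul_k, mul_d, sh_add, if_true]
      split_ifs with h
      · rw [f_add, h, sh_neg]
      · rw [zero_mul]
    · intro l _ hl
      simp [mat, hl]
    · simp

def Φ : A →* GL (Fin 6) (ZMod 23) := matHom.toHomUnits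

theorem Φ_val (a : A) : (Φ a).val = mat a := rfl

theorem Φ_inj : Function.Injective Φ := by
  rw [injective_iff_map_eq_one]
  intro a h
  have h1 : mat a = 1 := congrArg Units.val h
  have h2 : ∀ i, mat a i i = 1 := fun i => by rw [h1]; simp
  have hk : a.k = 0 := by
    apply sh_fix
    have := h2 0
    by_contra hc
    rw [mat, if_neg (Ne.symm hc)] at this
    exact absurd this (by decide)
  ext i
  · have := h2 i
    rw [mat, hk, sh_zero, if_pos rfl] at this
    exact f_inj _ this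
  · exact hk

def E : Matrix (Fin 6) (Fin 6) (ZMod 23) := fun i j => if i = j ∧ i ≠ 5 then 1 else 0

theorem E_eq : E = Matrix.diagonal (fun i => if i ≠ 5 then 1 else 0) := by decide

theorem mat_E (a : A) : mat a * E = E * mat a := by
  ext i j
  rw [E_eq, Matrix.mul_diagonal, Matrix.diagonal_mul, mat]
  split_ifs with h h1 h2 h2
  · simp
  · exact absurd ((sh_five _ _).1 (h ▸ not_not.1 h2)) h1
  · exact absurd (h.trans ((sh_five _ _).2 (not_not.1 h1))) h2
  all_goals simp

def B : Subgroup (GL (Fin 6) (ZMod 23)) where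
  carrier := {x | Commute x.val E}
  one_mem' := Commute.one_left _
  mul_mem' := fun ha hb => Commute.mul_left ha hb
  inv_mem' := fun ha => Commute.units_inv_left ha

def gm : Matrix (Fin 6) (Fin 6) (ZMod 23) := fun i j =>
  if i = 5 then (if j = 5 then 0 else 14) else if j = 5 then 1 else if i = j then 10 else 9

theorem gm_sq : gm * gm = 1 := by decide +kernel

def g : GL (Fin 6) (ZMod 23) := ⟨gm, gm, gm_sq, gm_sq⟩

def a0 : A := ⟨fun i => if i = 5 then 0 else 1, 1⟩

theorem z_B : gm * mat a0 * gm * E = E * (gm * mat a0 * gm) := by decide +kernel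

theorem z5 : (gm * mat (a0 ^ 5) * gm * E) 0 1 ≠ 0 := by decide +kernel

theorem orb : ∀ k : ZMod 5, k ≠ 0 → ∀ i : Fin 6, i ≠ 5 → i = 0 ∨ sh (-k) i = 0 ∨
    sh (-k) (sh (-k) i) = 0 ∨ sh (-k) (sh (-k) (sh (-k) i)) = 0 ∨
    sh (-k) (sh (-k) (sh (-k) (sh (-k) i))) = 0 := by decide

theorem five (a : A) (h : a.k ≠ 0) : ∃ c : ZMod 23, mat (a ^ 5) * E = c • E := by
  have hk : (a ^ 5).k = 0 := by
    rw [pow_k]; exact mul_eq_zero_of_left (by decide) _
  have hc : ∀ i, (a ^ 5).d (sh (-a.k) i) = (a ^ 5).d i := by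
    intro i
    have := congrFun (congrArg A.d (Commute.self_pow a 5).eq) i
    rw [mul_d, mul_d, hk, neg_zero, sh_zero, add_comm] at this
    exact add_right_cancel this
  have h0 : ∀ i, i ≠ 5 → (a ^ 5).d i = (a ^ 5).d 0 := by
    intro i hi
    rcases orb a.k h i hi with h | h | h | h | h <;> rw [← h] <;> simp only [hc]
  refine ⟨f ((a ^ 5).d 0), ?_⟩
  ext i j
  rw [E_eq, Matrix.mul_diagonal, Matrix.smul_apply, Matrix.diagonal_apply, mat, hk, sh_zero]
  by_cases hij : i = j
  · subst hij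
    by_cases hi : i = 5
    · simp [hi]
    · simp [hi, h0 i hi]
  · simp [hij]

theorem key (x : GL (Fin 6) (ZMod 23)) (hx : x ∈ B) (a : A) :
    Φ a ≠ x * g * Φ a0 * (x * g)⁻¹ := by
  intro h
  by_cases hk : a.k = 0
  · have h1 : a ^ 11 = 1 := by
      ext i
      · rw [pow_d a hk]; exact mul_eq_zero_of_left (by decide) _
      · rw [pow_k, hk]; simp
    have h2 : Φ (a0 ^ 11) = 1 := by
      have h4 : Φ (a ^ 11) = x * g * Φ (a0 ^ 11) * (x * g)⁻¹ := by
        rw [map_pow, map_pow, h, conj_pow]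
      rw [h1, map_one] at h4
      exact conj_eq_one_iff.1 h4.symm
    have h3 := congrArg A.k ((map_eq_one_iff _ Φ_inj).1 h2)
    rw [pow_k] at h3
    exact absurd h3 (by decide)
  · obtain ⟨c, hc⟩ := five a hk
    have h1 : g * Φ (a0 ^ 5) * g⁻¹ = x⁻¹ * Φ (a ^ 5) * x := by
      rw [map_pow, map_pow, h, conj_pow]; group
    have h2 : gm * mat (a0 ^ 5) * gm = (x⁻¹).val * mat (a ^ 5) * x.val := congrArg Units.val h1
    apply z5
    have hx' : x.val * E = E * x.val := hx
    rw [h2, mul_assoc, hx', ← mul_assoc, mul_assoc _ _ E, hc, mul_assoc, smul_mul_assoc, ← hx',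
      mul_smul_comm, ← mul_assoc, Units.inv_mul, one_mul]
    simp [E]

theorem card_G : Nat.card (GL (Fin 6) (ZMod 23)) =
    (23 ^ 6 - 1) * (23 ^ 6 - 23) * (23 ^ 6 - 23 ^ 2) * (23 ^ 6 - 23 ^ 3) * (23 ^ 6 - 23 ^ 4) *
      (23 ^ 6 - 23 ^ 5) := by
  haveI : Fact (Nat.Prime 23) := ⟨by norm_num⟩
  rw [Matrix.card_GL_field, Fin.prod_univ_six]
  simp

end Pool.Agent.H.MP_65d788_al
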